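import Pool.Agent.WR2.StmtsC

set_option autoImplicit false

/-!
# WR2, row FNL: final theorem
-/

namespace Pool.Agent.WR2.H16

open Pool.Agent.WIR Pool.Agent.WR2
open scoped BigOperators ENNReal

theorem fnl (COR : CorStmt) (SBU : SbuStmt) (PDC : PdcStmt) : FnlStmt := by
  classical
  intro ε hε
  obtain ⟨c0, hc0, n0, q0, H⟩ := COR (ε / 3) (by positivity)
  refine ⟨min (c0 / 64) (1 / 2 ^ n0), by positivity, n0, 3 ^ q0, fun X hX => ?_⟩
  have hcpos : 0 < min (c0 / 64) (1 / 2 ^ n0 : ℝ) := by positivity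
  have hc1 : min (c0 / 64) (1 / 2 ^ n0 : ℝ) ≤ c0 / 64 := min_le_left _ _
  have hc2 : min (c0 / 64) (1 / 2 ^ n0 : ℝ) ≤ 1 / 2 ^ n0 := min_le_right _ _
  generalize min (c0 / 64) (1 / 2 ^ n0 : ℝ) = c at hcpos hc1 hc2 ⊢
  have hX1 : X ≠ 0 := by
    have : 0 < 3 ^ q0 := by positivity
    omega
  have hq1 : 3 ^ Nat.log 3 X ≤ X := Nat.pow_log_le_self 3 hX1
  have hq2 : X < 3 ^ (Nat.log 3 X + 1) := Nat.lt_pow_succ_log_self (by norm_num) X
  generalize Nat.log 3 X = q at hq1 hq2
  have hq0 : q0 ≤ q + 1 := by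
    by_contra hlt
    push Not at hlt
    have h1 : 3 ^ (q + 1) ≤ 3 ^ q0 := Nat.pow_le_pow_right (by norm_num) hlt.le
    omega
  have hcard := H (q + 1) hq0
  have hX3 : (3 : ℝ) ^ q ≤ X := by exact_mod_cast hq1
  refine le_trans (le_trans (Nat.cast_le.2 (Finset.card_le_card ?_)) hcard) ?_
  · intro a ha
    rw [Finset.mem_filter, Finset.mem_Icc] at ha
    obtain ⟨⟨ha1, haX⟩, ha3, hno⟩ := ha
    rw [Finset.mem_filter, Finset.mem_Icc]
    refine ⟨⟨ha1, by omega⟩, ha3, ?_⟩
    by_contra hcon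
    push Not at hcon
    apply hno
    constructor
    · intro n hn
      obtain ⟨L, hL⟩ := hcon n hn.le
      have hn1 : 1 ≤ n := by omega
      have h1 : ENNReal.ofReal (c0 * 2 ^ n) ≤ sN n a := by
        have h2 : ENNReal.ofReal (∑ l ∈ Finset.range L, (uT (Mz n l) l a : ℝ)) ≤ sN n a := by
          rw [ENNReal.ofReal_sum_of_nonneg fun l _ => Nat.cast_nonneg _]
          have h3 : ∑ l ∈ Finset.range L, ENNReal.ofReal (uT (Mz n l) l a : ℝ)
              = ∑ l ∈ Finset.range L, (uT (Mz n l) l a : ℝ≥0∞) := by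
            refine Finset.sum_congr rfl fun l _ => ?_
            exact ENNReal.ofReal_natCast _
          rw [h3]
          exact ENNReal.sum_le_tsum _
        exact le_trans (ENNReal.ofReal_le_ofReal hL) h2
      refine lt_of_lt_of_le ?_ h1
      refine lt_of_le_of_lt (mul_le_mul_right (SBU n hn1) _) ?_
      rw [← ENNReal.ofReal_mul hcpos.le]
      have h2n : (0 : ℝ) < 2 ^ n := by positivity
      rw [ENNReal.ofReal_lt_ofReal_iff (by positivity)]
      nlinarith [mul_le_mul_of_nonneg_right hc1 h2n.le, mul_pos hc0 h2n]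
    · intro hper n
      have h2n : (0 : ℝ) < 2 ^ n := by positivity
      rcases lt_or_ge n n0 with hn | hn
      · have h1 : a ∈ (Finset.Icc 1 (2 ^ n * a)).filter (fun b => ∃ j, T^[j] b = a) := by
          rw [Finset.mem_filter, Finset.mem_Icc]
          refine ⟨⟨ha1, ?_⟩, 0, rfl⟩
          exact Nat.le_mul_of_pos_left a (by positivity)
        have h2 : (1 : ℝ) ≤ (((Finset.Icc 1 (2 ^ n * a)).filter
            (fun b => ∃ j, T^[j] b = a)).card : ℝ) := by
          exact_mod_cast Finset.card_pos.2 ⟨a, h1⟩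
        refine le_trans ?_ h2
        have h3 : (2 : ℝ) ^ n ≤ 2 ^ n0 := pow_le_pow_right₀ (by norm_num) hn.le
        calc c * 2 ^ n ≤ (1 / 2 ^ n0) * 2 ^ n0 := by gcongr
          _ = 1 := by field_simp
      · obtain ⟨L, hL⟩ := hcon n hn
        have h1 := PDC n L a (by omega) hper
        have h2 : (∑ l ∈ Finset.range L, (uT (Mz n l) l a : ℝ)) ≤
            (((Finset.Icc 1 (2 ^ n * a)).filter (fun b => ∃ j, T^[j] b = a)).card : ℝ) := by
          have h3 : ((∑ l ∈ Finset.range L, uT (Mz n l) l a : ℕ) : ℝ)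
              = ∑ l ∈ Finset.range L, (uT (Mz n l) l a : ℝ) := by
            push_cast
            rfl
          rw [← h3]
          refine le_trans (Nat.cast_le.2 h1) (le_of_eq ?_)
          congr 2
        refine le_trans ?_ h2
        refine le_trans ?_ hL
        nlinarith [mul_le_mul_of_nonneg_right hc1 h2n.le, mul_pos hc0 h2n]
  · rw [pow_succ]
    nlinarith

end Pool.Agent.WR2.H16
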